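import Pool.Agent.helper7.ND.Defs

/-!
# ND-DenN (helper18): from the nodes to all integers

`rec_dens`: `cnt F X = cnt E X + cnt F (X / m) + O(N)`, so with `G = D m / (m - 1) = D + G / m` the deviations `e(X) = |cnt F X - G X|`
satisfy `e(X) ≤ ε X + K + e(X / m)`.
`dens_all`: the nodes without the condition `4 ∤ b` (`m = 4`), the odd integers (`m ↦ (3 m + s) / 2`), all integers (`m = 2`).
-/

namespace Pool.Agent.helper78.T5

open Finset Pool.Agent.helper4.BAS

/-- Linear form of the density. -/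
def DenN_lin (S : Set ℕ) (D : ℝ) : Prop := ∀ ε : ℝ, 0 < ε → ∃ K : ℝ, 0 ≤ K ∧ ∀ X : ℕ, |cnt S X - D * X| ≤ ε * X + K

theorem DenN_cnt_nonneg (S : Set ℕ) (X : ℕ) : 0 ≤ cnt S X := by
  unfold cnt; positivity

theorem DenN_cnt_le (S : Set ℕ) (X : ℕ) : cnt S X ≤ X := by
  classical
  unfold cnt
  have h1 : ((Icc 1 X).filter (fun n => n ∈ S)).card ≤ X := by
    refine (card_filter_le _ _).trans ?_
    rw [Nat.card_Icc]
    omega
  exact_mod_cast h1

theorem DenN_trivial (S : Set ℕ) (D : ℝ) (X : ℕ) : |cnt S X - D * X| ≤ (1 + |D|) * X := by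
  refine (abs_sub _ _).trans ?_
  rw [abs_of_nonneg (DenN_cnt_nonneg S X), abs_mul, Nat.abs_cast, one_add_mul]
  exact add_le_add (DenN_cnt_le S X) le_rfl

theorem DenN_to {S : Set ℕ} {D : ℝ} (h : HasDens S D) : DenN_lin S D := by
  intro ε hε
  obtain ⟨N, hN⟩ := (Metric.tendsto_atTop.1 h) ε hε
  refine ⟨(1 + |D|) * N, by positivity, fun X => ?_⟩
  by_cases hX : N ≤ X
  · rcases Nat.eq_zero_or_pos X with h0 | h0
    · subst h0
      have := DenN_trivial S D 0
      simp only [Nat.cast_zero, mul_zero] at this ⊢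
      have h2 : (0 : ℝ) ≤ (1 + |D|) * N := by positivity
      linarith
    · have hX0 : (0 : ℝ) < X := by exact_mod_cast h0
      have h1 := (hN X hX).le
      rw [Real.dist_eq] at h1
      have h2 : cnt S X / X - D = (cnt S X - D * X) / X := by field_simp
      rw [h2, abs_div, abs_of_pos hX0, div_le_iff₀ hX0] at h1
      have h3 : (0 : ℝ) ≤ (1 + |D|) * N := by positivity
      linarith
  · have h1 := DenN_trivial S D X
    have h2 : (X : ℝ) ≤ N := by exact_mod_cast (not_le.1 hX).le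
    have h3 : (1 + |D|) * X ≤ (1 + |D|) * N := mul_le_mul_of_nonneg_left h2 (by positivity)
    have h4 : 0 ≤ ε * X := by positivity
    linarith

theorem DenN_from {S : Set ℕ} {D : ℝ} (h : DenN_lin S D) : HasDens S D := by
  refine Metric.tendsto_atTop.2 fun ε hε => ?_
  obtain ⟨K, hK, hX⟩ := h (ε / 4) (by positivity)
  obtain ⟨N, hN⟩ : ∃ N : ℕ, K / (ε / 4) + 1 ≤ N := exists_nat_ge _
  refine ⟨N, fun X hXN => ?_⟩
  have h1 : (N : ℝ) ≤ X := by exact_mod_cast hXN
  have h2 : 0 ≤ K / (ε / 4) := by positivity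
  have hX0 : (0 : ℝ) < X := by linarith
  have h3 : K / (ε / 4) ≤ X := by linarith
  rw [div_le_iff₀ (by positivity)] at h3
  have h4 : cnt S X / X - D = (cnt S X - D * X) / X := by field_simp
  rw [Real.dist_eq, h4, abs_div, abs_of_pos hX0, div_lt_iff₀ hX0]
  have h5 := hX X
  nlinarith

open Classical in
theorem DenN_split {E F : Set ℕ} {m N : ℕ} (hm : 2 ≤ m)
    (h1 : ∀ n, N ≤ n → (n ∈ F ↔ n ∈ E ∨ (m ∣ n ∧ n / m ∈ F)))
    (h2 : ∀ n, N ≤ n → n ∈ E → ¬ (m ∣ n ∧ n / m ∈ F)) (X : ℕ) :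
    |cnt F X - (cnt E X + cnt F (X / m))| ≤ 2 * N := by
  have hm0 : 0 < m := by omega
  -- the elements `m k` with `k ∈ F`
  have e1 : cnt F (X / m) = (((Icc 1 X).filter (fun n => m ∣ n ∧ n / m ∈ F)).card : ℝ) := by
    unfold cnt
    norm_cast
    refine card_nbij' (fun k => m * k) (fun n => n / m) ?_ ?_ ?_ ?_
    · intro k hk
      rw [coe_filter, Set.mem_ofPred_eq, mem_Icc] at hk ⊢
      refine ⟨⟨Nat.mul_pos hm0 hk.1.1, ?_⟩, ⟨k, rfl⟩, ?_⟩
      · show m * k ≤ X
        rw [mul_comm]; exact (Nat.le_div_iff_mul_le hm0).1 hk.1.2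
      · show m * k / m ∈ F
        rw [Nat.mul_div_cancel_left _ hm0]; exact hk.2
    · intro n hn
      rw [coe_filter, Set.mem_ofPred_eq, mem_Icc] at hn ⊢
      obtain ⟨⟨a1, a2⟩, ⟨k, rfl⟩, a3⟩ := hn
      rw [Nat.mul_div_cancel_left _ hm0] at a3
      simp only [Nat.mul_div_cancel_left _ hm0]
      refine ⟨⟨Nat.pos_of_mul_pos_left a1, ?_⟩, a3⟩
      rw [Nat.le_div_iff_mul_le hm0, mul_comm]; exact a2
    · intro k _
      exact Nat.mul_div_cancel_left _ hm0
    · intro n hn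
      rw [coe_filter, Set.mem_ofPred_eq] at hn
      exact Nat.mul_div_cancel' hn.2.1
  -- the two sides agree from `N` on
  set P := (Icc 1 X).filter (fun n => n ∈ F) with hP
  set Q := (Icc 1 X).filter (fun n => n ∈ E) with hQ
  set R := (Icc 1 X).filter (fun n => m ∣ n ∧ n / m ∈ F) with hR
  have hcF : cnt F X = (P.card : ℝ) := rfl
  have hcE : cnt E X = (Q.card : ℝ) := rfl
  have a1 : P.card ≤ Q.card + R.card + N := by
    have : P ⊆ (Q ∪ R) ∪ range N := by
      intro n hn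
      rw [hP, mem_filter] at hn
      rw [mem_union, mem_union, mem_range, hQ, hR, mem_filter, mem_filter]
      by_cases hnN : n < N
      · exact Or.inr hnN
      · rcases (h1 n (not_lt.1 hnN)).1 hn.2 with h | h
        · exact Or.inl (Or.inl ⟨hn.1, h⟩)
        · exact Or.inl (Or.inr ⟨hn.1, h⟩)
    refine (card_le_card this).trans ((card_union_le _ _).trans ?_)
    rw [card_range]
    exact Nat.add_le_add_right (card_union_le _ _) _
  have a2 : Q.card + R.card ≤ P.card + 2 * N := by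
    have b1 : (Q \ range N).card + (R \ range N).card ≤ P.card := by
      rw [← card_union_of_disjoint]
      · refine card_le_card fun n hn => ?_
        rw [mem_union, mem_sdiff, mem_sdiff, mem_range, hQ, hR, mem_filter, mem_filter] at hn
        rw [hP, mem_filter]
        rcases hn with ⟨⟨c1, c2⟩, c3⟩ | ⟨⟨c1, c2⟩, c3⟩
        · exact ⟨c1, (h1 n (not_lt.1 c3)).2 (Or.inl c2)⟩
        · exact ⟨c1, (h1 n (not_lt.1 c3)).2 (Or.inr c2)⟩
      · rw [disjoint_left]
        intro n hn hn'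
        rw [mem_sdiff, mem_range, hQ, mem_filter] at hn
        rw [mem_sdiff, mem_range, hR, mem_filter] at hn'
        exact h2 n (not_lt.1 hn.2) hn.1.2 hn'.1.2
    have b2 : Q.card ≤ (Q \ range N).card + N := by
      have := le_card_sdiff (range N) Q
      rw [card_range] at this
      omega
    have b3 : R.card ≤ (R \ range N).card + N := by
      have := le_card_sdiff (range N) R
      rw [card_range] at this
      omega
    omega
  rw [e1, hcF, hcE, abs_le]
  have a1' : (P.card : ℝ) ≤ Q.card + R.card + N := by exact_mod_cast a1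
  have a2' : (Q.card : ℝ) + R.card ≤ P.card + 2 * N := by exact_mod_cast a2
  have hN0 : (0 : ℝ) ≤ N := by positivity
  constructor <;> linarith

theorem rec_dens {E F : Set ℕ} {m N : ℕ} (hm : 2 ≤ m)
    (h1 : ∀ n, N ≤ n → (n ∈ F ↔ n ∈ E ∨ (m ∣ n ∧ n / m ∈ F)))
    (h2 : ∀ n, N ≤ n → n ∈ E → ¬ (m ∣ n ∧ n / m ∈ F)) {D : ℝ} (hE : HasDens E D) :
    HasDens F (D * m / (m - 1)) := by
  refine DenN_from fun ε hε => ?_
  obtain ⟨K, hK, hKX⟩ := DenN_to hE (ε / 3) (by positivity)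
  have hm1 : (2 : ℝ) ≤ m := by exact_mod_cast hm
  have hm0 : (0 : ℝ) < m := by linarith
  obtain ⟨G, hG⟩ : ∃ G : ℝ, G = D * m / (m - 1) := ⟨_, rfl⟩
  rw [← hG]
  have hGD : G = D + G / m := by
    rw [hG]
    have : (m : ℝ) - 1 ≠ 0 := by linarith
    field_simp
    ring
  obtain ⟨K', hK'⟩ : ∃ K' : ℝ, K' = K + |G| + 2 * N := ⟨_, rfl⟩
  have hK'0 : 0 ≤ K' := by rw [hK']; positivity
  refine ⟨(1 + |G|) * (6 * K' / ε), by positivity, fun X => ?_⟩
  induction X using Nat.strong_induction_on with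
  | _ X ih =>
    by_cases hX : (X : ℝ) < 6 * K' / ε
    · have a1 := DenN_trivial F G X
      have a2 : (1 + |G|) * X ≤ (1 + |G|) * (6 * K' / ε) := mul_le_mul_of_nonneg_left hX.le (by positivity)
      have a3 : 0 ≤ ε * X := by positivity
      linarith
    · rcases Nat.eq_zero_or_pos X with h0 | h0
      · subst h0
        have := DenN_trivial F G 0
        simp only [Nat.cast_zero, mul_zero] at this ⊢
        have h2 : (0 : ℝ) ≤ (1 + |G|) * (6 * K' / ε) := by positivity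
        linarith
      · have hlt : X / m < X := Nat.div_lt_self h0 (by omega)
        have a1 := ih (X / m) hlt
        have a2 := hKX X
        have a3 := DenN_split hm h1 h2 X
        have hX' : 6 * K' ≤ X * ε := by
          rw [not_lt, div_le_iff₀ hε] at hX; exact hX
        have a4 : ((X / m : ℕ) : ℝ) ≤ X / m := Nat.cast_div_le
        have a5 : (X : ℝ) / m - 1 ≤ ((X / m : ℕ) : ℝ) := by
          have b1 : (X : ℝ) < m * ((X / m : ℕ) + 1 : ℝ) := by
            have := Nat.lt_mul_div_succ X (show 0 < m by omega)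
            exact_mod_cast this
          rw [sub_le_iff_le_add, div_le_iff₀ hm0]
          linarith
        have a6 : (X : ℝ) / m ≤ X / 2 := div_le_div_of_nonneg_left (by positivity) (by norm_num) hm1
        have a7 : cnt F X - G * X = (cnt F X - (cnt E X + cnt F (X / m))) + (cnt E X - D * X) +
            (cnt F (X / m) - G * (X / m : ℕ)) + G * ((X / m : ℕ) - X / m) := by
          have : G * X = D * X + G * (X / m) := by
            calc G * X = (D + G / m) * X := by rw [← hGD]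
              _ = _ := by ring
          rw [this]
          ring
        have a8 : |G * (((X / m : ℕ) : ℝ) - X / m)| ≤ |G| := by
          rw [abs_mul]
          have : |((X / m : ℕ) : ℝ) - X / m| ≤ 1 := by
            rw [abs_le]; constructor <;> linarith
          exact mul_le_of_le_one_right (abs_nonneg _) this
        rw [a7]
        refine (abs_add_le _ _).trans ((add_le_add (abs_add_le _ _) le_rfl).trans
          ((add_le_add (add_le_add (abs_add_le _ _) le_rfl) le_rfl).trans ?_))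
        have a9 : ε * ((X / m : ℕ) : ℝ) ≤ ε * (X / 2) := mul_le_mul_of_nonneg_left (a4.trans a6) hε.le
        rw [hK'] at hX'
        nlinarith

theorem DenN_half {s : ℤ} (hs : s = 1 ∨ s = -1) {S : Set ℤ} {N : ℕ}
    (hN : ∀ n : ℤ, (N : ℤ) ≤ |n| → (T n ∈ S ↔ n ∈ S)) {D : ℝ}
    (h : HasDens {a : ℕ | s * (a : ℤ) ∈ S ∧ (3 : ℤ) ∣ s * a - 2} D) :
    HasDens {m : ℕ | s * (m : ℤ) ∈ S ∧ m % 2 = 1} (3 / 2 * D) := by
  classical
  refine DenN_from fun ε hε => ?_
  obtain ⟨K, hK, hKX⟩ := DenN_to h (ε / 3) (by positivity)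
  refine ⟨ε + K + |D| + 2 * N, by positivity, fun X => ?_⟩
  -- the bound for the images
  obtain ⟨Y, hY⟩ : ∃ Y : ℕ, Y = ((3 * (X : ℤ) + s) / 2).toNat := ⟨_, rfl⟩
  -- the map
  have hT : ∀ m : ℕ, m % 2 = 1 → T (s * (m : ℤ)) = s * ((3 * (m : ℤ) + s) / 2) := by
    intro m hm
    unfold T
    rcases hs with rfl | rfl
    · rw [if_neg (by omega)]; omega
    · rw [if_neg (by omega)]; omega
  have habs : ∀ m : ℕ, |s * (m : ℤ)| = m := by
    intro m
    rw [abs_mul, Nat.abs_cast]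
    rcases hs with rfl | rfl <;> simp
  have c1 : (((Icc 1 X).filter (fun m : ℕ => m ∈ {m : ℕ | s * (m : ℤ) ∈ S ∧ m % 2 = 1})).card) ≤
      ((Icc 1 Y).filter (fun a : ℕ => a ∈ {a : ℕ | s * (a : ℤ) ∈ S ∧ (3 : ℤ) ∣ s * a - 2})).card + N := by
    have e1 : ((Icc 1 X).filter (fun m : ℕ => m ∈ {m : ℕ | s * (m : ℤ) ∈ S ∧ m % 2 = 1})) ⊆
        (((Icc 1 X).filter (fun m : ℕ => m ∈ {m : ℕ | s * (m : ℤ) ∈ S ∧ m % 2 = 1})) \ range N) ∪ range N := by
      intro n hn
      rw [mem_union, mem_sdiff]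
      by_cases h0 : n ∈ range N
      · exact Or.inr h0
      · exact Or.inl ⟨hn, h0⟩
    refine (card_le_card e1).trans ((card_union_le _ _).trans ?_)
    rw [card_range]
    refine Nat.add_le_add_right ?_ _
    refine card_le_card_of_injOn (fun m : ℕ => ((3 * (m : ℤ) + s) / 2).toNat) ?_ ?_
    · intro m hm
      rw [coe_sdiff, Set.mem_sdiff, mem_coe, mem_filter, mem_Icc, mem_coe, mem_range, Set.mem_ofPred_eq] at hm
      rw [mem_coe, mem_filter, mem_Icc, Set.mem_ofPred_eq]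
      obtain ⟨⟨⟨m1, m2⟩, m3, m4⟩, m5⟩ := hm
      have h5 := (hN (s * (m : ℤ)) (by rw [habs]; omega)).2 m3
      rw [hT m m4] at h5
      have h6 : (((3 * (m : ℤ) + s) / 2).toNat : ℤ) = (3 * (m : ℤ) + s) / 2 := by
        rcases hs with rfl | rfl <;> omega
      refine ⟨⟨?_, ?_⟩, ?_, ?_⟩
      · show 1 ≤ ((3 * (m : ℤ) + s) / 2).toNat
        rcases hs with rfl | rfl <;> omega
      · show ((3 * (m : ℤ) + s) / 2).toNat ≤ Y
        rcases hs with rfl | rfl <;> omega
      · rw [h6]; exact h5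
      · rw [h6]
        rcases hs with rfl | rfl <;> omega
    · intro m hm m' hm' hmm
      rw [coe_sdiff, Set.mem_sdiff, mem_coe, mem_filter, mem_Icc, mem_coe, mem_range, Set.mem_ofPred_eq] at hm hm'
      obtain ⟨⟨⟨m1, m2⟩, m3, m4⟩, m5⟩ := hm
      obtain ⟨⟨⟨m1', m2'⟩, m3', m4'⟩, m5'⟩ := hm'
      simp only at hmm
      rcases hs with rfl | rfl <;> omega
  have c2 : ((Icc 1 Y).filter (fun a : ℕ => a ∈ {a : ℕ | s * (a : ℤ) ∈ S ∧ (3 : ℤ) ∣ s * a - 2})).card ≤
      (((Icc 1 X).filter (fun m : ℕ => m ∈ {m : ℕ | s * (m : ℤ) ∈ S ∧ m % 2 = 1})).card) + N := by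
    have e1 : ((Icc 1 Y).filter (fun a : ℕ => a ∈ {a : ℕ | s * (a : ℤ) ∈ S ∧ (3 : ℤ) ∣ s * a - 2})).card ≤
        (((Icc 1 X).filter (fun m : ℕ => m ∈ {m : ℕ | s * (m : ℤ) ∈ S ∧ m % 2 = 1})) ∪ range N).card := by
      refine card_le_card_of_injOn (fun a : ℕ => ((2 * (a : ℤ) - s) / 3).toNat) ?_ ?_
      · intro a ha
        rw [mem_coe, mem_filter, mem_Icc, Set.mem_ofPred_eq] at ha
        obtain ⟨⟨a1, a2⟩, a3, a4⟩ := ha
        rw [mem_coe, mem_union, mem_filter, mem_Icc, Set.mem_ofPred_eq, mem_range]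
        by_cases h0 : ((2 * (a : ℤ) - s) / 3).toNat < N
        · exact Or.inr h0
        · refine Or.inl ⟨⟨?_, ?_⟩, ?_, ?_⟩
          · show 1 ≤ ((2 * (a : ℤ) - s) / 3).toNat
            rcases hs with rfl | rfl <;> omega
          · show ((2 * (a : ℤ) - s) / 3).toNat ≤ X
            rcases hs with rfl | rfl <;> omega
          · have h7 : ((2 * (a : ℤ) - s) / 3).toNat % 2 = 1 := by
              rcases hs with rfl | rfl <;> omega
            have h8 := hT _ h7
            have h9 := hN (s * ((((2 * (a : ℤ) - s) / 3).toNat : ℕ) : ℤ)) (by rw [habs]; omega)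
            rw [h8] at h9
            refine h9.1 ?_
            have h10 : s * ((3 * ((((2 * (a : ℤ) - s) / 3).toNat : ℕ) : ℤ) + s) / 2) = s * a := by
              congr 1
              rcases hs with rfl | rfl <;> omega
            rw [h10]
            exact a3
          · show ((2 * (a : ℤ) - s) / 3).toNat % 2 = 1
            rcases hs with rfl | rfl <;> omega
      · intro a ha a' ha' haa
        rw [mem_coe, mem_filter, mem_Icc, Set.mem_ofPred_eq] at ha ha'
        simp only at haa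
        obtain ⟨⟨a1, a2⟩, a3, a4⟩ := ha
        obtain ⟨⟨a1', a2'⟩, a3', a4'⟩ := ha'
        rcases hs with rfl | rfl <;> omega
    refine e1.trans ((card_union_le _ _).trans ?_)
    rw [card_range]
  have d1 : cnt {m : ℕ | s * (m : ℤ) ∈ S ∧ m % 2 = 1} X ≤ cnt {a : ℕ | s * (a : ℤ) ∈ S ∧ (3 : ℤ) ∣ s * a - 2} Y + N := by
    have c1' : (((((Icc 1 X).filter (fun m : ℕ => m ∈ {m : ℕ | s * (m : ℤ) ∈ S ∧ m % 2 = 1})).card) : ℕ) : ℝ) ≤
        ((((Icc 1 Y).filter (fun a : ℕ => a ∈ {a : ℕ | s * (a : ℤ) ∈ S ∧ (3 : ℤ) ∣ s * a - 2})).card : ℕ) : ℝ) + N := by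
      exact_mod_cast c1
    unfold cnt
    convert c1'
  have d2 : cnt {a : ℕ | s * (a : ℤ) ∈ S ∧ (3 : ℤ) ∣ s * a - 2} Y ≤ cnt {m : ℕ | s * (m : ℤ) ∈ S ∧ m % 2 = 1} X + N := by
    have c2' : ((((Icc 1 Y).filter (fun a : ℕ => a ∈ {a : ℕ | s * (a : ℤ) ∈ S ∧ (3 : ℤ) ∣ s * a - 2})).card : ℕ) : ℝ) ≤
        (((((Icc 1 X).filter (fun m : ℕ => m ∈ {m : ℕ | s * (m : ℤ) ∈ S ∧ m % 2 = 1})).card) : ℕ) : ℝ) + N := by
      exact_mod_cast c2
    unfold cnt
    convert c2'
  have d3 := abs_le.1 (hKX Y)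
  have d4 : (Y : ℝ) ≤ 3 / 2 * X + 1 ∧ 3 / 2 * (X : ℝ) - 1 ≤ Y := by
    have y1 : 2 * Y ≤ 3 * X + 2 := by rcases hs with rfl | rfl <;> omega
    have y2 : 3 * X ≤ 2 * Y + 2 := by rcases hs with rfl | rfl <;> omega
    have y1' : 2 * (Y : ℝ) ≤ 3 * X + 2 := by exact_mod_cast y1
    have y2' : 3 * (X : ℝ) ≤ 2 * Y + 2 := by exact_mod_cast y2
    constructor <;> linarith
  have d5 : |D * (Y - 3 / 2 * X)| ≤ |D| := by
    rw [abs_mul]
    refine mul_le_of_le_one_right (abs_nonneg _) ?_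
    rw [abs_le]
    constructor <;> linarith [d4.1, d4.2]
  have d6 := abs_le.1 d5
  have d7 : ε / 3 * Y ≤ ε / 3 * (3 / 2 * X + 1) := mul_le_mul_of_nonneg_left d4.1 (by positivity)
  have d8 : D * (Y - 3 / 2 * X) = D * Y - 3 / 2 * D * X := by ring
  rw [d8] at d6
  have d9 : 0 ≤ ε * X := by positivity
  have d10 : (0 : ℝ) ≤ N := by positivity
  rw [abs_le]
  constructor
  · nlinarith [d3.1, d3.2, d6.1, d6.2]
  · nlinarith [d3.1, d3.2, d6.1, d6.2]

theorem dens_all {s : ℤ} (hs : s = 1 ∨ s = -1) {S : Set ℤ} (hS : Pool.Agent.helper7.ND.Inv S) {D : ℝ}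
    (h : HasDens (Pool.Agent.helper7.ND.A s S) D) : HasDens {n : ℕ | s * (n : ℤ) ∈ S} (4 * D) := by
  obtain ⟨N, hN⟩ := hS
  have habs : ∀ m : ℕ, |s * (m : ℤ)| = m := by
    intro m
    rw [abs_mul, Nat.abs_cast]
    rcases hs with rfl | rfl <;> simp
  have hhalf : ∀ k : ℕ, N ≤ 2 * k → (s * ((2 * k : ℕ) : ℤ) ∈ S ↔ s * (k : ℤ) ∈ S) := by
    intro k hk
    have h1 := hN (s * ((2 * k : ℕ) : ℤ)) (by rw [habs]; omega)
    have h2 : T (s * ((2 * k : ℕ) : ℤ)) = s * k := by
      unfold T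
      rcases hs with rfl | rfl
      · rw [if_pos (by omega)]; omega
      · rw [if_pos (by omega)]; omega
    rw [h2] at h1
    exact h1.symm
  -- (1)
  have s1 : HasDens {a : ℕ | s * (a : ℤ) ∈ S ∧ (3 : ℤ) ∣ s * a - 2} (D * (4 : ℕ) / ((4 : ℕ) - 1)) := by
    refine rec_dens (E := Pool.Agent.helper7.ND.A s S) (m := 4) (N := 2 * N) (by norm_num) ?_ ?_ h
    · intro n hn
      rw [Set.mem_ofPred_eq]
      by_cases h4 : 4 ∣ n
      · obtain ⟨k, rfl⟩ := h4
        have e1 : s * ((4 * k : ℕ) : ℤ) ∈ S ↔ s * (k : ℤ) ∈ S := by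
          rw [← hhalf k (by omega), ← hhalf (2 * k) (by omega)]
          rw [show 2 * (2 * k) = 4 * k by ring]
        have e2 : (3 : ℤ) ∣ s * ((4 * k : ℕ) : ℤ) - 2 ↔ (3 : ℤ) ∣ s * (k : ℤ) - 2 := by
          rcases hs with rfl | rfl
          · omega
          · omega
        rw [e1, e2, Nat.mul_div_cancel_left _ (by norm_num)]
        constructor
        · intro hh
          exact Or.inr ⟨⟨k, rfl⟩, hh⟩
        · rintro (hh | hh)
          · exact absurd ⟨k, rfl⟩ hh.2.2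
          · exact hh.2
      · constructor
        · intro hh
          exact Or.inl ⟨hh.1, hh.2, h4⟩
        · rintro (hh | hh)
          · exact ⟨hh.1, hh.2.1⟩
          · exact absurd hh.1 h4
    · intro n _ hn hh
      exact hn.2.2 hh.1
  -- (2)
  have s2 := DenN_half hs hN s1
  -- (3)
  have s3 : HasDens {n : ℕ | s * (n : ℤ) ∈ S} (3 / 2 * (D * (4 : ℕ) / ((4 : ℕ) - 1)) * (2 : ℕ) / ((2 : ℕ) - 1)) := by
    refine rec_dens (E := {m : ℕ | s * (m : ℤ) ∈ S ∧ m % 2 = 1}) (m := 2) (N := N) le_rfl ?_ ?_ s2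
    · intro n hn
      rw [Set.mem_ofPred_eq, Set.mem_ofPred_eq]
      by_cases h2 : 2 ∣ n
      · obtain ⟨k, rfl⟩ := h2
        rw [hhalf k hn, Nat.mul_div_cancel_left _ (by norm_num)]
        constructor
        · intro hh
          exact Or.inr ⟨⟨k, rfl⟩, hh⟩
        · rintro (hh | hh)
          · omega
          · exact hh.2
      · constructor
        · intro hh
          exact Or.inl ⟨hh, by omega⟩
        · rintro (hh | hh)
          · exact hh.1
          · exact absurd hh.1 h2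
    · intro n _ hn hh
      rw [Set.mem_ofPred_eq] at hn
      omega
  have e : 3 / 2 * (D * ((4 : ℕ) : ℝ) / (((4 : ℕ) : ℝ) - 1)) * ((2 : ℕ) : ℝ) / (((2 : ℕ) : ℝ) - 1) = 4 * D := by
    push_cast
    ring
  rwa [e] at s3

end Pool.Agent.helper78.T5
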