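import Pool.Agent.helper78.T5.Defs

/-!
# ND-Lim (helper18): from the windows to the natural density

`n(Y)` = number of elements of `S` in `[1, Y)`.  For `q = 1 + s`, `δ = s²` the number of elements in `[X, ⌈q X⌉)` is between `X (c - δ)` and
`⌈q X⌉ (c + δ)`, `|c| ≤ 3 s`; by induction on `Y` (`X = ⌊Y / q⌋`) `|n(Y) - (c/s) Y| ≤ K + 8 s Y`.  So `n(Y) / Y` is a Cauchy sequence.
-/

namespace Pool.Agent.helper78.T5

open Finset

open Classical in
/-- The number of elements of `S` in `[1, Y)`. -/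
noncomputable def Lim_n (S : Set ℕ) (Y : ℕ) : ℝ := (((Ico 1 Y).filter (fun n => n ∈ S)).card : ℝ)

open Classical in
/-- The number of elements of `S` in `[X, Y)`. -/
noncomputable def Lim_w (S : Set ℕ) (X Y : ℕ) : ℝ := (((Ico X Y).filter (fun n => n ∈ S)).card : ℝ)

theorem Lim_add {S : Set ℕ} {X Y : ℕ} (h1 : 1 ≤ X) (h2 : X ≤ Y) : Lim_n S Y = Lim_n S X + Lim_w S X Y := by
  classical
  unfold Lim_n Lim_w
  rw [← Ico_union_Ico_eq_Ico h1 h2, filter_union, card_union_of_disjoint]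
  · push_cast; rfl
  · exact disjoint_filter_filter (Ico_disjoint_Ico_consecutive _ _ _)

theorem Lim_w_add {S : Set ℕ} {X Y Z : ℕ} (h1 : X ≤ Y) (h2 : Y ≤ Z) : Lim_w S X Z = Lim_w S X Y + Lim_w S Y Z := by
  classical
  unfold Lim_w
  rw [← Ico_union_Ico_eq_Ico h1 h2, filter_union, card_union_of_disjoint]
  · push_cast; rfl
  · exact disjoint_filter_filter (Ico_disjoint_Ico_consecutive _ _ _)

theorem Lim_w_nonneg (S : Set ℕ) (X Y : ℕ) : 0 ≤ Lim_w S X Y := by
  unfold Lim_w; positivity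

theorem Lim_w_le {S : Set ℕ} {X Y : ℕ} (h : X ≤ Y) : Lim_w S X Y ≤ (Y : ℝ) - X := by
  classical
  unfold Lim_w
  have h1 : ((Ico X Y).filter (fun n => n ∈ S)).card ≤ Y - X := by
    refine (card_filter_le _ _).trans ?_
    rw [Nat.card_Ico]
  have h2 : (((Ico X Y).filter (fun n => n ∈ S)).card : ℝ) ≤ ((Y - X : ℕ) : ℝ) := by exact_mod_cast h1
  rwa [Nat.cast_sub h] at h2

theorem Lim_n_nonneg (S : Set ℕ) (Y : ℕ) : 0 ≤ Lim_n S Y := by
  unfold Lim_n; positivity

theorem Lim_n_le (S : Set ℕ) (Y : ℕ) : Lim_n S Y ≤ Y := by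
  classical
  unfold Lim_n
  have h1 : ((Ico 1 Y).filter (fun n => n ∈ S)).card ≤ Y := by
    refine (card_filter_le _ _).trans ?_
    rw [Nat.card_Ico]
    omega
  exact_mod_cast h1

theorem Lim_mass {S : Set ℕ} {X : ℕ} (hX : 1 ≤ X) (Y : ℝ) :
    X * mass S X Y ≤ Lim_w S X ⌈Y⌉₊ ∧ Lim_w S X ⌈Y⌉₊ ≤ (⌈Y⌉₊ : ℝ) * mass S X Y := by
  classical
  have hX' : (0 : ℝ) < X := by exact_mod_cast hX
  unfold mass Lim_w
  constructor
  · rw [mul_sum, card_eq_sum_ones, Nat.cast_sum]
    refine sum_le_sum fun b hb => ?_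
    have h1 : X ≤ b := (mem_Ico.1 (mem_filter.1 hb).1).1
    have h2 : (X : ℝ) ≤ b := by exact_mod_cast h1
    rw [Nat.cast_one, mul_one_div, div_le_one (lt_of_lt_of_le hX' h2)]
    exact h2
  · rw [mul_sum, card_eq_sum_ones, Nat.cast_sum]
    refine sum_le_sum fun b hb => ?_
    have h1 : X ≤ b := (mem_Ico.1 (mem_filter.1 hb).1).1
    have h2 : (X : ℝ) ≤ b := by exact_mod_cast h1
    have h3 : b < ⌈Y⌉₊ := (mem_Ico.1 (mem_filter.1 hb).1).2
    have h4 : (b : ℝ) ≤ (⌈Y⌉₊ : ℝ) := by exact_mod_cast h3.le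
    rw [Nat.cast_one, mul_one_div, one_le_div (lt_of_lt_of_le hX' h2)]
    exact h4

theorem Lim_mass_nonneg (S : Set ℕ) (X : ℕ) (Y : ℝ) : 0 ≤ mass S X Y := by
  unfold mass
  exact sum_nonneg fun b _ => by positivity

theorem Lim_key {S : Set ℕ} {s c : ℝ} (hs : 0 < s) (hs1 : s ≤ 1) {X0 : ℕ}
    (h : ∀ X : ℕ, X0 ≤ X → |mass S X ((1 + s) * X) - c| ≤ s ^ 2) :
    ∃ K : ℝ, ∀ Y : ℕ, |Lim_n S Y - c / s * Y| ≤ K + 8 * s * Y := by
  -- large X
  obtain ⟨X1, hX1⟩ : ∃ X1 : ℕ, 20 / (3 * s ^ 2) + 1 / s + 1 + X0 ≤ X1 := exists_nat_ge _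
  have hs2 : 0 < s ^ 2 := by positivity
  have hs3 : s ^ 2 ≤ s := by nlinarith
  have hX1' : ∀ X : ℕ, X1 ≤ X → 1 ≤ X ∧ X0 ≤ X ∧ 20 ≤ 3 * s ^ 2 * X ∧ 1 ≤ s * X := by
    intro X hX
    have hX' : (X1 : ℝ) ≤ X := by exact_mod_cast hX
    have p1 : 0 < 20 / (3 * s ^ 2) := by positivity
    have p2 : 0 < 1 / s := by positivity
    have p3 : (0 : ℝ) ≤ X0 := by positivity
    have a1 : (1 : ℝ) ≤ X := by linarith
    have a2 : (X0 : ℝ) ≤ X := by linarith
    have a3 : 20 / (3 * s ^ 2) ≤ X := by linarith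
    have a4 : 1 / s ≤ X := by linarith
    refine ⟨by exact_mod_cast a1, by exact_mod_cast a2, ?_, ?_⟩
    · rw [div_le_iff₀ (by positivity)] at a3
      linarith
    · rw [div_le_iff₀ hs] at a4
      linarith
  -- the constant c
  have hc : |c| ≤ 3 * s := by
    obtain ⟨b1, b2, -, b4⟩ := hX1' X1 le_rfl
    have h1 := abs_le.1 (h X1 b2)
    have h2 := Lim_mass_nonneg S X1 ((1 + s) * X1)
    have b1' : (0 : ℝ) < X1 := by exact_mod_cast b1
    have hM : X1 ≤ ⌈(1 + s) * (X1 : ℝ)⌉₊ := by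
      have : (X1 : ℝ) ≤ ⌈(1 + s) * (X1 : ℝ)⌉₊ := le_trans (by nlinarith) (Nat.le_ceil _)
      exact_mod_cast this
    have h3 := (Lim_mass (S := S) b1 ((1 + s) * X1)).1
    have h4 := Lim_w_le (S := S) hM
    have h5 : (⌈(1 + s) * (X1 : ℝ)⌉₊ : ℝ) < (1 + s) * X1 + 1 := Nat.ceil_lt_add_one (by positivity)
    have h6 : mass S X1 ((1 + s) * X1) ≤ 2 * s := by
      have h7 : (X1 : ℝ) * mass S X1 ((1 + s) * X1) ≤ X1 * (2 * s) := by nlinarith
      exact le_of_mul_le_mul_left h7 b1'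
    rw [abs_le]
    constructor
    · nlinarith [h1.2]
    · nlinarith [h1.1]
  have hcs : |c / s| ≤ 3 := by
    rw [abs_div, abs_of_pos hs, div_le_iff₀ hs]
    exact hc
  refine ⟨8 * (X1 + 2), fun Y => ?_⟩
  induction Y using Nat.strong_induction_on with
  | _ Y ih =>
    by_cases hY : (Y : ℝ) < (1 + s) * (X1 + 1)
    · -- small Y
      have h1 := Lim_n_nonneg S Y
      have h2 := Lim_n_le S Y
      have h3 : |c / s * Y| ≤ 3 * Y := by
        rw [abs_mul, Nat.abs_cast]
        exact mul_le_mul_of_nonneg_right hcs (by positivity)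
      have h4 : (0 : ℝ) ≤ Y := by positivity
      have h5 : |Lim_n S Y - c / s * Y| ≤ 4 * Y := by
        refine (abs_sub _ _).trans ?_
        rw [abs_of_nonneg h1]
        linarith
      have h6 : (Y : ℝ) < 2 * (X1 + 1) := by
        have : (0 : ℝ) ≤ (X1 : ℝ) + 1 := by positivity
        nlinarith
      have h7 : 0 ≤ 8 * s * Y := by positivity
      linarith
    · push Not at hY
      have hq : 0 < 1 + s := by linarith
      -- X = ⌊Y / q⌋
      obtain ⟨X, hXd⟩ : ∃ X : ℕ, X = ⌊(Y : ℝ) / (1 + s)⌋₊ := ⟨_, rfl⟩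
      have hXY : (1 + s) * (X : ℝ) ≤ Y := by
        have : (X : ℝ) ≤ (Y : ℝ) / (1 + s) := by rw [hXd]; exact Nat.floor_le (by positivity)
        rw [le_div_iff₀ hq] at this
        linarith
      have hYX : (Y : ℝ) < (1 + s) * (X + 1) := by
        have : (Y : ℝ) / (1 + s) < X + 1 := by rw [hXd]; exact Nat.lt_floor_add_one _
        rw [div_lt_iff₀ hq] at this
        linarith
      have hX1X : X1 ≤ X := by
        have h1 : (X1 : ℝ) + 1 ≤ (Y : ℝ) / (1 + s) := by
          rw [le_div_iff₀ hq]; linarith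
        have h2 : X1 + 1 ≤ X := by
          rw [hXd]
          refine Nat.le_floor ?_
          push_cast
          exact h1
        omega
      obtain ⟨b1, b2, b3, b4⟩ := hX1' X hX1X
      have b1' : (0 : ℝ) < X := by exact_mod_cast b1
      have hXltY : X < Y := by
        have : (X : ℝ) < Y := by nlinarith
        exact_mod_cast this
      have hIH := ih X hXltY
      -- M = ⌈q X⌉
      obtain ⟨M, hMd⟩ : ∃ M : ℕ, M = ⌈(1 + s) * (X : ℝ)⌉₊ := ⟨_, rfl⟩
      have hM1 : (1 + s) * (X : ℝ) ≤ M := by rw [hMd]; exact Nat.le_ceil _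
      have hM2 : (M : ℝ) < (1 + s) * X + 1 := by rw [hMd]; exact Nat.ceil_lt_add_one (by positivity)
      have hMY : M ≤ Y := by rw [hMd]; exact Nat.ceil_le.2 hXY
      have hMY' : (M : ℝ) ≤ Y := by exact_mod_cast hMY
      have hXM : X ≤ M := by
        have : (X : ℝ) ≤ M := by nlinarith
        exact_mod_cast this
      obtain ⟨m1, m2⟩ := Lim_mass (S := S) b1 ((1 + s) * X)
      rw [← hMd] at m1 m2
      have m3 := Lim_mass_nonneg S X ((1 + s) * X)
      have m4 := abs_le.1 (h X b2)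
      have e1 : Lim_n S Y = Lim_n S X + (Lim_w S X M + Lim_w S M Y) := by
        rw [Lim_add b1 (hXM.trans hMY), Lim_w_add hXM hMY]
      have t1 := Lim_w_nonneg S M Y
      have t2 := Lim_w_le (S := S) hMY
      -- e = Y - X - s X
      have e2 : Lim_n S Y - c / s * Y = (Lim_n S X - c / s * X) +
          (Lim_w S X M + Lim_w S M Y - c * X - c / s * (Y - (1 + s) * X)) := by
        rw [e1]
        field_simp
        ring
      have he0 : 0 ≤ (Y : ℝ) - (1 + s) * X := by linarith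
      have he1 : (Y : ℝ) - (1 + s) * X ≤ 2 := by
        have : (1 + s) * ((X : ℝ) + 1) = (1 + s) * X + (1 + s) := by ring
        linarith
      have e3 : |c / s * (Y - (1 + s) * X)| ≤ 6 := by
        rw [abs_mul, abs_of_nonneg he0]
        calc |c / s| * (Y - (1 + s) * X) ≤ 3 * 2 := mul_le_mul hcs he1 he0 (by norm_num)
          _ = 6 := by norm_num
      have hc' := abs_le.1 hc
      have e4 : |Lim_w S X M + Lim_w S M Y - c * X - c / s * (Y - (1 + s) * X)| ≤ 5 * s ^ 2 * X + 20 := by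
        have e3' := abs_le.1 e3
        rw [abs_le]
        constructor
        · -- lower
          have u1 : X * (c - s ^ 2) ≤ Lim_w S X M :=
            le_trans (mul_le_mul_of_nonneg_left (by linarith [m4.1]) b1'.le) m1
          have u2 : 0 ≤ s ^ 2 * X := by positivity
          have u3 : X * (c - s ^ 2) = c * X - s ^ 2 * X := by ring
          linarith
        · have u1 : Lim_w S X M ≤ ((1 + s) * X + 1) * (c + s ^ 2) := by
            refine m2.trans ?_
            have v1 : mass S X ((1 + s) * X) ≤ c + s ^ 2 := by linarith [m4.2]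
            exact mul_le_mul hM2.le v1 m3 (by positivity)
          have u2 : ((1 + s) * X + 1) * (c + s ^ 2) - c * X = s * c * X + (1 + s) * s ^ 2 * X + c + s ^ 2 := by
            ring
          have u3 : s * c * X ≤ 3 * s ^ 2 * X := by
            have : s * c ≤ 3 * s ^ 2 := by
              calc s * c ≤ s * (3 * s) := mul_le_mul_of_nonneg_left hc'.2 hs.le
                _ = 3 * s ^ 2 := by ring
            exact mul_le_mul_of_nonneg_right this b1'.le
          have u4 : (1 + s) * s ^ 2 * X ≤ 2 * s ^ 2 * X := by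
            have : (1 + s) * s ^ 2 ≤ 2 * s ^ 2 := mul_le_mul_of_nonneg_right (by linarith) hs2.le
            exact mul_le_mul_of_nonneg_right this b1'.le
          have u5 : Lim_w S M Y ≤ 2 := by linarith
          linarith [hc'.2, e3'.1]
      rw [e2]
      refine (abs_add_le _ _).trans ?_
      have e5 : 8 * s * ((1 + s) * X) ≤ 8 * s * Y := mul_le_mul_of_nonneg_left hXY (by positivity)
      have e6 : 8 * s * ((1 + s) * X) = 8 * s * X + 8 * s ^ 2 * X := by ring
      linarith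

theorem lim_dens {S : Set ℕ} (h : ∀ q : ℝ, 1 < q → q ≤ 2 → ∀ δ : ℝ, 0 < δ → ∃ (c : ℝ) (X0 : ℕ),
    ∀ X : ℕ, X0 ≤ X → |mass S X (q * X) - c| ≤ δ) : ∃ D : ℝ, HasDens S D := by
  classical
  refine cauchySeq_tendsto_of_complete (Metric.cauchySeq_iff'.2 fun ε hε => ?_)
  obtain ⟨s, hs, hs1, hsε⟩ : ∃ s : ℝ, 0 < s ∧ s ≤ 1 ∧ 20 * s < ε := by
    refine ⟨min 1 (ε / 40), by positivity, min_le_left _ _, ?_⟩
    have : min 1 (ε / 40) ≤ ε / 40 := min_le_right _ _
    linarith
  obtain ⟨c, X0, hc⟩ := h (1 + s) (by linarith) (by linarith) (s ^ 2) (by positivity)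
  obtain ⟨K, hK⟩ := Lim_key hs hs1 hc
  obtain ⟨N, hN⟩ : ∃ N : ℕ, (|K| + 1) / s + 1 ≤ N := exists_nat_ge _
  have key : ∀ Y : ℕ, N ≤ Y → |cnt S Y / Y - c / s| ≤ 9 * s := by
    intro Y hY
    have hY' : (N : ℝ) ≤ Y := by exact_mod_cast hY
    have p1 : 0 ≤ (|K| + 1) / s := by positivity
    have hY0 : (0 : ℝ) < Y := by linarith
    have h1 : (|K| + 1) / s ≤ Y := by linarith
    rw [div_le_iff₀ hs] at h1
    have h2 := hK Y
    have h3 : |cnt S Y - Lim_n S Y| ≤ 1 := by
      unfold cnt Lim_n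
      have hY1 : 1 ≤ Y := by exact_mod_cast (show (1 : ℝ) ≤ Y by linarith)
      have e : Icc 1 Y = insert Y (Ico 1 Y) := by
        ext n; simp only [mem_Icc, mem_insert, mem_Ico]; omega
      rw [e, filter_insert]
      split_ifs
      · rw [card_insert_of_notMem (by simp)]
        push_cast
        rw [add_sub_cancel_left, abs_one]
      · simp
    have h4 : |cnt S Y - c / s * Y| ≤ |K| + 1 + 8 * s * Y := by
      have : cnt S Y - c / s * Y = (cnt S Y - Lim_n S Y) + (Lim_n S Y - c / s * Y) := by ring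
      rw [this]
      refine (abs_add_le _ _).trans ?_
      have := le_abs_self K
      linarith
    have h5 : cnt S Y / Y - c / s = (cnt S Y - c / s * Y) / Y := by
      field_simp
    rw [h5, abs_div, abs_of_pos hY0, div_le_iff₀ hY0]
    linarith
  refine ⟨N, fun Y hY => ?_⟩
  rw [Real.dist_eq]
  have h1 := key Y hY
  have h2 := key N le_rfl
  have h3 : cnt S Y / Y - cnt S N / N = (cnt S Y / Y - c / s) - (cnt S N / N - c / s) := by ring
  rw [h3]
  refine lt_of_le_of_lt (abs_sub _ _) ?_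
  linarith

end Pool.Agent.helper78.T5
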