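import Pool.Agent.helper7.ND.Sand
import Pool.Agent.helper7.ND.Lim
import Pool.Agent.helper7.ND.DenN

/-!
# ND: the integers of one sign in a set which is invariant under the `3x+1` map outside a finite set have a natural density
-/

namespace Pool.Agent.helper7.ND

open Finset Pool.Agent.helper4.BAS Pool.Agent.helper78.T5

theorem dens {s : ℤ} (hs : s = 1 ∨ s = -1) {S : Set ℤ} (hS : Inv S) :
    ∃ D : ℝ, HasDens {n : ℕ | s * (n : ℤ) ∈ S} D := by
  obtain ⟨D, hD⟩ := lim_dens (S := A s S) fun q hq hq2 δ hδ => sand hs hS hq hq2 hδ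
  exact ⟨4 * D, dens_all hs hS hD⟩

open Classical in
theorem nd {s : ℤ} (hs : s = 1 ∨ s = -1) (S : Set ℤ) (hS : ∀ n, T n ∈ S ↔ n ∈ S) :
    ∃ d : ℝ, Filter.Tendsto (fun X : ℕ =>
      ((((Icc 1 X).filter (fun n : ℕ => s * (n : ℤ) ∈ S)).card : ℕ) : ℝ) / X) Filter.atTop (nhds d) := by
  obtain ⟨D, hD⟩ := dens hs (S := S) ⟨0, fun n _ => hS n⟩
  exact ⟨D, hD⟩

end Pool.Agent.helper7.ND
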