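import Pool.Agent.helper78.T5.Defs
import Pool.Agent.helper4.BAS.Defs

/-!
# ND: natural densities of the sets which are invariant under the `3x+1` map: definitions
-/

namespace Pool.Agent.helper7.ND

open Pool.Agent.helper4.BAS

/-- `S` is invariant outside a finite set. -/
def Inv (S : Set ℤ) : Prop := ∃ N : ℕ, ∀ n : ℤ, (N : ℤ) ≤ |n| → (T n ∈ S ↔ n ∈ S)

/-- The absolute values of the nodes (`s b ≡ 2` modulo `3`, not divisible by `4`) in `S` of the sign `s`. -/
def A (s : ℤ) (S : Set ℤ) : Set ℕ := {b | s * (b : ℤ) ∈ S ∧ (3 : ℤ) ∣ s * b - 2 ∧ ¬ 4 ∣ b}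

end Pool.Agent.helper7.ND
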