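import Pool.Agent.helper7.ND.Nd
import Pool.Agent.helper62.T2.Comb

/-!
# ND: the set of the integers whose trajectory contains `m` has a natural density, which is positive if `m` is prime to `3`
-/

namespace Pool.Agent.helper7.ND

open Finset Filter Topology Pool.Agent.helper4.BAS Pool.Agent.helper41.Coll

theorem T_f {n : ℕ} (hn : 2 ≤ n) : T (n : ℤ) = (f n : ℤ) := by
  unfold T f
  have h1 : n ≠ 1 := by omega
  rw [if_neg h1]
  rcases Nat.even_or_odd' n with ⟨k, hk | hk⟩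
  · have h2 : (n : ℤ) % 2 = 0 := by omega
    have h3 : ¬ n % 2 = 1 := by omega
    rw [if_pos h2, if_neg h3]
    push_cast
    rfl
  · have h2 : ¬ (n : ℤ) % 2 = 0 := by omega
    have h3 : n % 2 = 1 := by omega
    rw [if_neg h2, if_pos h3]
    push_cast
    rfl

theorem T_neg {n : ℤ} (hn : n ≤ -1) : T n ≤ -1 := by
  unfold T
  split_ifs with h <;> omega

theorem pre_inv (m : ℕ) : Inv {z : ℤ | 2 ≤ z ∧ ∃ i, f^[i] z.toNat = m} := by
  refine ⟨m + 4, fun n hn => ?_⟩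
  rcases le_or_gt 0 n with h0 | h0
  · obtain ⟨k, rfl⟩ := Int.eq_ofNat_of_zero_le h0
    rw [abs_of_nonneg h0] at hn
    have hk : m + 4 ≤ k := by exact_mod_cast hn
    have hTk := T_f (n := k) (by omega)
    have hf2 : 2 ≤ f k := by
      unfold f
      split_ifs with h1 h2 <;> omega
    rw [Set.mem_ofPred_eq, Set.mem_ofPred_eq, hTk, Int.toNat_natCast, Int.toNat_natCast]
    constructor
    · rintro ⟨-, i, hi⟩
      exact ⟨by exact_mod_cast (show 2 ≤ k by omega), i + 1, by rw [Function.iterate_succ_apply]; exact hi⟩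
    · rintro ⟨-, i, hi⟩
      refine ⟨by exact_mod_cast hf2, ?_⟩
      rcases i with _ | i
      · rw [Function.iterate_zero_apply] at hi
        omega
      · rw [Function.iterate_succ_apply] at hi
        exact ⟨i, hi⟩
  · have h1 := T_neg (n := n) (by omega)
    rw [Set.mem_ofPred_eq, Set.mem_ofPred_eq]
    constructor
    · rintro ⟨h2, -⟩
      omega
    · rintro ⟨h2, -⟩
      omega

theorem pre_dens (m : ℕ) : ∃ D : ℝ, Tendsto (fun x : ℕ =>
    (Nat.card {n : ℕ // 2 ≤ n ∧ n ≤ x ∧ ∃ i, f^[i] n = m} : ℝ) / x) atTop (𝓝 D) := by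
  classical
  obtain ⟨D, hD⟩ := dens (s := 1) (Or.inl rfl) (pre_inv m)
  refine ⟨D, hD.congr fun x => ?_⟩
  congr 1
  unfold Pool.Agent.helper78.T5.cnt
  rw [Pool.Agent.helper62.T2.Comb_card]
  refine congrArg (fun F : Finset ℕ => ((F.card : ℕ) : ℝ)) (Finset.ext fun n => ?_)
  refine (@Finset.mem_filter ℕ _ (_) _ _).trans (Iff.trans ?_ (@Finset.mem_filter ℕ _ (_) _ _).symm)
  rw [mem_Icc, mem_Icc, Set.mem_ofPred_eq, Set.mem_ofPred_eq, one_mul, Int.toNat_natCast]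
  constructor
  · rintro ⟨⟨h1, h2⟩, h3, h4⟩
    exact ⟨⟨by exact_mod_cast h3, h2⟩, h4⟩
  · rintro ⟨⟨h1, h2⟩, h4⟩
    exact ⟨⟨by omega, h2⟩, by exact_mod_cast h1, h4⟩

theorem pre_pos {m : ℕ} (hm : 1 ≤ m) (h3 : ¬ 3 ∣ m) : ∃ D : ℝ, 0 < D ∧
    Tendsto (fun x : ℕ =>
      (Nat.card {n : ℕ // 2 ≤ n ∧ n ≤ x ∧ ∃ i, f^[i] n = m} : ℝ) / x) atTop (𝓝 D) ∧
    ((∃ i, f^[i] m = 1) → ∀ ε : ℝ, 0 < ε → Tendsto (fun x : ℕ =>
      (Nat.card {n : ℕ // 2 ≤ n ∧ n ≤ x ∧ (∃ i, f^[i] n = m) ∧ Pool.Agent.helper62.T2.Tpl ε n} : ℝ) / x)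
        atTop (𝓝 D)) := by
  classical
  obtain ⟨D, hD⟩ := pre_dens m
  obtain ⟨c, hc, hpos, -⟩ := Pool.Agent.helper62.T2.comb_positive hm h3
  have hcD : c ≤ D := by
    refine ge_of_tendsto hD ?_
    filter_upwards [hpos, eventually_ge_atTop 1] with x h1 h2
    rw [le_div_iff₀ (by exact_mod_cast h2)]
    exact h1
  refine ⟨D, lt_of_lt_of_le hc hcD, hD, ?_⟩
  intro h1 ε hε
  have hbad : Tendsto (fun x : ℕ => (Nat.card {n : ℕ // 2 ≤ n ∧ n ≤ x ∧ (∃ i, f^[i] n = 1) ∧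
      ¬ Pool.Agent.helper62.T2.Tpl ε n} : ℝ) / x) atTop (𝓝 0) := by
    rw [Metric.tendsto_atTop]
    intro δ hδ
    have hev := (Pool.Agent.helper62.T2.comb_almost hε (half_pos hδ)).and (eventually_ge_atTop 1)
    rw [eventually_atTop] at hev
    obtain ⟨x0, hx0⟩ := hev
    refine ⟨x0, fun x hx => ?_⟩
    obtain ⟨hB, hx1⟩ := hx0 x hx
    have hxr : (0 : ℝ) < x := by exact_mod_cast hx1
    rw [Real.dist_eq, sub_zero, abs_of_nonneg (by positivity), div_lt_iff₀ hxr]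
    nlinarith
  have hlow : Tendsto (fun x : ℕ =>
      (Nat.card {n : ℕ // 2 ≤ n ∧ n ≤ x ∧ ∃ i, f^[i] n = m} : ℝ) / x -
      (Nat.card {n : ℕ // 2 ≤ n ∧ n ≤ x ∧ (∃ i, f^[i] n = 1) ∧
        ¬ Pool.Agent.helper62.T2.Tpl ε n} : ℝ) / x) atTop (𝓝 D) := by
    simpa using hD.sub hbad
  refine tendsto_of_tendsto_of_tendsto_of_le_of_le hlow hD ?_ ?_
  · intro x
    show _ - _ ≤ _
    rw [← sub_div]
    refine div_le_div_of_nonneg_right ?_ (Nat.cast_nonneg x)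
    rw [sub_le_iff_le_add, Pool.Agent.helper62.T2.Comb_card, Pool.Agent.helper62.T2.Comb_card,
      Pool.Agent.helper62.T2.Comb_card]
    have hsub : (Finset.Icc 2 x).filter (fun n => ∃ i, f^[i] n = m) ⊆
        (Finset.Icc 2 x).filter (fun n => (∃ i, f^[i] n = m) ∧ Pool.Agent.helper62.T2.Tpl ε n) ∪
        (Finset.Icc 2 x).filter (fun n => (∃ i, f^[i] n = 1) ∧ ¬ Pool.Agent.helper62.T2.Tpl ε n) := by
      intro n hn
      rw [Finset.mem_filter] at hn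
      rw [Finset.mem_union, Finset.mem_filter, Finset.mem_filter]
      by_cases ht : Pool.Agent.helper62.T2.Tpl ε n
      · exact Or.inl ⟨hn.1, hn.2, ht⟩
      · refine Or.inr ⟨hn.1, ?_, ht⟩
        obtain ⟨i, hi⟩ := hn.2
        obtain ⟨i', hi'⟩ := h1
        exact ⟨i' + i, by rw [Function.iterate_add_apply, hi, hi']⟩
    have h9 := (Finset.card_le_card hsub).trans (Finset.card_union_le _ _)
    rw [← Nat.cast_add]
    exact Nat.cast_le.2 h9
  · intro x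
    refine div_le_div_of_nonneg_right ?_ (Nat.cast_nonneg x)
    rw [Pool.Agent.helper62.T2.Comb_card, Pool.Agent.helper62.T2.Comb_card]
    have hsub : (Finset.Icc 2 x).filter (fun n => (∃ i, f^[i] n = m) ∧ Pool.Agent.helper62.T2.Tpl ε n) ⊆
        (Finset.Icc 2 x).filter (fun n => ∃ i, f^[i] n = m) := by
      intro n hn
      rw [Finset.mem_filter] at hn ⊢
      exact ⟨hn.1, hn.2.1⟩
    exact Nat.cast_le.2 (Finset.card_le_card hsub)

end Pool.Agent.helper7.ND
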