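import Pool.Agent.helper7.ND.Defs
import Pool.Agent.helper14.EX1.InjZ
import Pool.Agent.helper14.EX1.Wrd

/-!
# ND-Red: reduction to sets which are exactly invariant at the even integers
-/

namespace Pool.Agent.helper7.ND

open Pool.Agent.helper4.BAS Pool.Agent.helper14.EX1

/-- Exactly invariant at the even integers, and at the odd integers of absolute value at least `N`. -/
def Inv2 (N : ℕ) (S : Set ℤ) : Prop :=
  (∀ n : ℤ, 2 * n ∈ S ↔ n ∈ S) ∧ ∀ n : ℤ, n % 2 = 1 → (N : ℤ) ≤ |n| → (T n ∈ S ↔ n ∈ S)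

theorem T_two (n : ℤ) : T (2 * n) = n := by
  unfold T
  rw [if_pos (by omega)]
  omega

theorem inv2_compl {N : ℕ} {S : Set ℤ} (h : Inv2 N S) : Inv2 N Sᶜ :=
  ⟨fun n => not_congr (h.1 n), fun n h1 h2 => not_congr (h.2 n h1 h2)⟩

theorem inv2_of {S : Set ℤ} (hS : ∀ n : ℤ, T n ∈ S ↔ n ∈ S) : Inv2 0 S := by
  refine ⟨fun n => ?_, fun n _ _ => hS n⟩
  have h := hS (2 * n)
  rw [T_two] at h
  exact h.symm

theorem inv2_pow {N : ℕ} {S : Set ℤ} (h : Inv2 N S) (j : ℕ) (n : ℤ) : 2 ^ j * n ∈ S ↔ n ∈ S := by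
  induction j with
  | zero => simp
  | succ j ih =>
    have h1 : (2 : ℤ) ^ (j + 1) * n = 2 * (2 ^ j * n) := by ring
    rw [h1, h.1, ih]

theorem T_abs {n : ℤ} (h : n % 2 = 1) : |n| ≤ |T n| := by
  unfold T
  rw [if_neg (by omega)]
  rcases le_or_gt 0 n with h0 | h0
  · rw [abs_of_nonneg h0, abs_of_nonneg (by omega)]
    omega
  · rw [abs_of_neg h0, abs_of_nonpos (by omega)]
    omega

theorem red {S : Set ℤ} (hS : Inv S) :
    ∃ (N : ℕ) (S' : Set ℤ), Inv2 N S' ∧ ∀ n : ℤ, (N : ℤ) ≤ |n| → (n ∈ S ↔ n ∈ S') := by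
  obtain ⟨N, h⟩ := hS
  have h2 : ∀ n : ℤ, (N : ℤ) ≤ |n| → (2 * n ∈ S ↔ n ∈ S) := by
    intro n hn
    have h3 := h (2 * n) (by rw [abs_mul, abs_two]; linarith [abs_nonneg n])
    rw [T_two] at h3
    exact h3.symm
  have hp : ∀ (j : ℕ) (n : ℤ), (N : ℤ) ≤ |n| → (2 ^ j * n ∈ S ↔ n ∈ S) := by
    intro j n hn
    induction j with
    | zero => simp
    | succ j ih =>
      have h1 : (2 : ℤ) ^ (j + 1) * n = 2 * (2 ^ j * n) := by ring
      rw [h1, h2, ih]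
      rw [abs_mul, abs_of_pos (by positivity : (0 : ℤ) < 2 ^ j)]
      have h4 : (1 : ℤ) ≤ 2 ^ j := one_le_pow₀ (by norm_num)
      nlinarith [abs_nonneg n]
  have hm : ∀ n : ℤ, (N : ℤ) ≤ |n| → (n ∈ S ↔ n ∈ {n : ℤ | ∃ j0 : ℕ, ∀ j, j0 ≤ j → 2 ^ j * n ∈ S}) := by
    intro n hn
    constructor
    · intro h1
      exact ⟨0, fun j _ => (hp j n hn).2 h1⟩
    · rintro ⟨j0, hj⟩
      exact (hp j0 n hn).1 (hj j0 le_rfl)
  refine ⟨N, {n : ℤ | ∃ j0 : ℕ, ∀ j, j0 ≤ j → 2 ^ j * n ∈ S}, ⟨fun n => ?_, fun n hn1 hn2 => ?_⟩, hm⟩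
  · constructor
    · rintro ⟨j0, hj⟩
      refine ⟨j0 + 1, fun j hj' => ?_⟩
      obtain ⟨i, rfl⟩ : ∃ i, j = i + 1 := ⟨j - 1, by omega⟩
      have h1 := hj i (by omega)
      have h3 : (2 : ℤ) ^ (i + 1) * n = 2 ^ i * (2 * n) := by ring
      rw [h3]
      exact h1
    · rintro ⟨j0, hj⟩
      refine ⟨j0, fun j hj' => ?_⟩
      have h1 := hj (j + 1) (by omega)
      have h3 : (2 : ℤ) ^ (j + 1) * n = 2 ^ j * (2 * n) := by ring
      rw [← h3]
      exact h1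
  · rw [← hm n hn2, ← hm (T n) (hn2.trans (T_abs hn1))]
    exact h n hn2

/-- One letter. -/
theorem letter_iff {N : ℕ} {S : Set ℤ} (h : Inv2 N S) {k : ℕ} (hk : 1 ≤ k) {x : ℤ} (ha : Al k x)
    (hN : 2 * (N : ℤ) ≤ |3 * Tk k x + 2|) : 3 * Tk k x + 2 ∈ S ↔ 3 * x + 2 ∈ S := by
  have h1 := Tk_node hk ha
  generalize 3 * Tk k x + 2 = a' at h1 hN ⊢
  generalize 3 * x + 2 = a at h1 ⊢
  by_cases hp : k % 2 = 1
  · rw [if_pos hp] at h1
    obtain ⟨j, rfl⟩ : ∃ j, k = j + 1 := ⟨k - 1, by omega⟩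
    have h2 : 3 * a' + 1 = 2 * (2 ^ j * a) := by
      have : (2 : ℤ) ^ (j + 1) * a = 2 * (2 ^ j * a) := by ring
      linarith
    have h3 : a' % 2 = 1 := by omega
    have h4 : T a' = 2 ^ j * a := by
      unfold T
      rw [if_neg (by omega)]
      omega
    rw [← h.2 a' h3 (by linarith [abs_nonneg a']), h4, inv2_pow h]
  · rw [if_neg hp] at h1
    obtain ⟨j, rfl⟩ : ∃ j, k = j + 2 := ⟨k - 2, by omega⟩
    have h2 : 3 * a' + 2 = 4 * (2 ^ j * a) := by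
      have : (2 : ℤ) ^ (j + 2) * a = 4 * (2 ^ j * a) := by ring
      linarith
    obtain ⟨m, rfl⟩ : ∃ m, a' = 2 * m := ⟨a' / 2, by omega⟩
    have h3 : m % 2 = 1 := by omega
    have h4 : T m = 2 ^ j * a := by
      unfold T
      rw [if_neg (by omega)]
      omega
    rw [abs_mul, abs_two] at hN
    rw [h.1, ← h.2 m h3 (by linarith), h4, inv2_pow h]

theorem word_iff {N : ℕ} {S : Set ℤ} (h : Inv2 N S) {x : ℤ} {v : List ℕ} (hv : ∀ k ∈ v, 1 ≤ k)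
    (ha : Ala x v) (hN : ∀ i, 1 ≤ i → i ≤ v.length → 2 * (N : ℤ) ≤ |3 * nd x (v.take i) + 2|) :
    3 * nd x v + 2 ∈ S ↔ 3 * x + 2 ∈ S := by
  induction v using List.reverseRecOn with
  | nil => rfl
  | append_singleton u k ih =>
    rw [ala_append] at ha
    have h1 : Al k (nd x u) := ha.2.1
    have h2 : nd x (u ++ [k]) = Tk k (nd x u) := nd_append x u [k]
    have h3 := hN (u ++ [k]).length (by simp) le_rfl
    rw [List.take_length, h2] at h3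
    rw [h2, letter_iff h (hv k (by simp)) h1 h3]
    refine ih (fun j hj => hv j (by simp [hj])) ha.1 fun i hi1 hi2 => ?_
    have h4 := hN i hi1 (by simp; omega)
    rwa [List.take_append_of_le_length hi2] at h4

theorem fp_iff {N : ℕ} {S : Set ℤ} (h : Inv2 N S) {s Z x : ℤ} (hs : s = 1 ∨ s = -1) (hZ : 2 * (N : ℤ) ≤ Z)
    {v : List ℕ} (hf : FP s Z x v) : 3 * nd x v + 2 ∈ S ↔ 3 * x + 2 ∈ S := by
  obtain ⟨-, -, -, -, hv, ha, hn⟩ := hf
  refine word_iff h hv ha fun i hi1 hi2 => ?_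
  have h1 := hn i hi1 hi2
  unfold nv at h1
  refine hZ.trans (h1.trans ?_)
  refine (le_abs_self _).trans ?_
  rw [abs_mul]
  rcases hs with rfl | rfl <;> simp

end Pool.Agent.helper7.ND
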