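import Pool.Agent.helper7.ND.Red
import Pool.Agent.helper78.T5.MassW
import Pool.Agent.helper4.BAS.Uni
import Pool.Agent.helper4.BAS.OSm

/-!
# ND-Sand: the mass of an invariant set in the windows `[X, q X)` is asymptotically constant

The map `p ↦ (nv s (nd p.1 p.2)).toNat` is injective on `P` (`fp_uniq`); the end of a first passage word is in `S` iff the root is
(`fp_iff`).  This gives a lower bound for the mass of `S` and of its complement; the mass of all nodes is known (`osum`).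
-/

namespace Pool.Agent.helper7.ND

open Finset Pool.Agent.helper14.EX1 Pool.Agent.helper4.BAS Pool.Agent.helper78.T5

theorem Sand_sq {s : ℤ} (hs : s = 1 ∨ s = -1) : s * s = 1 := by
  rcases hs with rfl | rfl <;> norm_num

/-- The natural number of the end. -/
theorem Sand_end {s : ℤ} (hs : s = 1 ∨ s = -1) {Z x : ℤ} {v : List ℕ} (h : FP s Z x v) :
    (((nv s (nd x v)).toNat : ℕ) : ℤ) = nv s (nd x v) ∧
    s * (((nv s (nd x v)).toNat : ℕ) : ℤ) = 3 * nd x v + 2 ∧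
    (3 : ℤ) ∣ s * (((nv s (nd x v)).toNat : ℕ) : ℤ) - 2 ∧ ¬ 4 ∣ (nv s (nd x v)).toNat := by
  obtain ⟨h0, h4, hZ, hne, hv, ha, hn⟩ := h
  have h1 := hn v.length (Nat.one_le_iff_ne_zero.2 (fun h => hne (List.length_eq_zero_iff.1 h))) le_rfl
  rw [List.take_length] at h1
  have h2 : 0 ≤ nv s (nd x v) := by omega
  have h3 : (((nv s (nd x v)).toNat : ℕ) : ℤ) = nv s (nd x v) := Int.toNat_of_nonneg h2
  have h5 : s * nv s (nd x v) = 3 * nd x v + 2 := by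
    unfold nv
    rw [← mul_assoc, Sand_sq hs, one_mul]
  refine ⟨h3, by rw [h3, h5], by rw [h3, h5]; omega, fun h6 => ?_⟩
  have h7 : (4 : ℤ) ∣ nv s (nd x v) := by
    rw [← h3]
    exact_mod_cast h6
  have h8 : (4 : ℤ) ∣ 3 * nd x v + 2 := by
    rw [← h5]
    exact Dvd.dvd.mul_left h7 s
  exact InjZ_end hne hv ha h8

open Classical in
/-- The lower bound. -/
theorem Sand_low {s : ℤ} (hs : s = 1 ∨ s = -1) {N : ℕ} {Q : Set ℤ} (hQ : Inv2 N Q) {Z : ℤ}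
    (hZ : 2 * (N : ℤ) ≤ Z) {X : ℕ} {Y : ℝ} {P : Finset (ℤ × List ℕ)}
    (hP : ∀ p ∈ P, FP s Z p.1 p.2 ∧ (X : ℝ) ≤ nv s (nd p.1 p.2) ∧ (nv s (nd p.1 p.2) : ℝ) < Y)
    {c : ℤ → ℝ} (hc : ∀ x ∈ Ico (-Z) Z, c x ≤
      ∑ p ∈ P.filter (fun p => p.1 = x), 1 / (nv s (nd p.1 p.2) : ℝ)) {F : Finset ℤ}
    (hF : ∀ x ∈ F, x ∈ Ico (-Z) Z ∧ 3 * x + 2 ∈ Q) :
    ∑ x ∈ F, c x ≤ mass (A s Q) X Y := by
  have h1 : ∑ x ∈ F, c x ≤
      ∑ x ∈ F, ∑ p ∈ P.filter (fun p => p.1 = x), 1 / (nv s (nd p.1 p.2) : ℝ) :=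
    sum_le_sum fun x hx => hc x (hF x hx).1
  refine h1.trans ?_
  have h2 : ∑ x ∈ F, ∑ p ∈ P.filter (fun p => p.1 = x), 1 / (nv s (nd p.1 p.2) : ℝ) ≤
      ∑ p ∈ P.filter (fun p => 3 * p.1 + 2 ∈ Q), 1 / (nv s (nd p.1 p.2) : ℝ) := by
    have h3 : ∑ x ∈ F,
        ∑ p ∈ P.filter (fun p => p.1 = x), 1 / (nv s (nd p.1 p.2) : ℝ) =
        ∑ x ∈ F,
        ∑ p ∈ (P.filter (fun p => 3 * p.1 + 2 ∈ Q)).filter (fun p => p.1 = x),
          1 / (nv s (nd p.1 p.2) : ℝ) := by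
      refine sum_congr rfl fun x hx => ?_
      refine sum_congr ?_ fun _ _ => rfl
      ext p
      simp only [mem_filter]
      constructor
      · rintro ⟨h4, h5⟩
        exact ⟨⟨h4, by rw [h5]; exact (hF x hx).2⟩, h5⟩
      · rintro ⟨⟨h4, _⟩, h5⟩
        exact ⟨h4, h5⟩
    rw [h3]
    have hnn : ∀ p ∈ P.filter (fun p => 3 * p.1 + 2 ∈ Q), 0 ≤ 1 / (nv s (nd p.1 p.2) : ℝ) := by
      intro p hp
      have h6 := (hP p (mem_filter.1 hp).1).2.1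
      have h7 : (0 : ℝ) ≤ X := Nat.cast_nonneg X
      exact one_div_nonneg.2 (h7.trans h6)
    rw [sum_fiberwise_eq_sum_filter (P.filter (fun p => 3 * p.1 + 2 ∈ Q)) _ (fun p => p.1)
      (fun p => 1 / (nv s (nd p.1 p.2) : ℝ))]
    exact sum_le_sum_of_subset_of_nonneg (filter_subset _ _) fun p hp _ => hnn p hp
  refine h2.trans ?_
  have h4 : ∀ p ∈ P.filter (fun p => 3 * p.1 + 2 ∈ Q),
      1 / (nv s (nd p.1 p.2) : ℝ) = 1 / (((nv s (nd p.1 p.2)).toNat : ℕ) : ℝ) := by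
    intro p hp
    have h5 := (Sand_end hs (hP p (mem_filter.1 hp).1).1).1
    have h6 : (((nv s (nd p.1 p.2)).toNat : ℕ) : ℝ) = (nv s (nd p.1 p.2) : ℝ) := by exact_mod_cast h5
    rw [h6]
  rw [sum_congr rfl h4]
  have hinj : ∀ p ∈ P.filter (fun p => 3 * p.1 + 2 ∈ Q), ∀ p' ∈ P.filter (fun p => 3 * p.1 + 2 ∈ Q),
      (nv s (nd p.1 p.2)).toNat = (nv s (nd p'.1 p'.2)).toNat → p = p' := by
    intro p hp p' hp' h5
    have e1 := Sand_end hs (hP p (mem_filter.1 hp).1).1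
    have e2 := Sand_end hs (hP p' (mem_filter.1 hp').1).1
    have h6 : nd p.1 p.2 = nd p'.1 p'.2 := by
      have h7 := e1.2.1
      rw [h5, e2.2.1] at h7
      omega
    obtain ⟨h8, h9⟩ := fp_uniq (hP p (mem_filter.1 hp).1).1 (hP p' (mem_filter.1 hp').1).1 h6
    exact Prod.ext h8 h9
  rw [← sum_image (f := fun b : ℕ => 1 / (b : ℝ)) hinj]
  unfold mass
  refine sum_le_sum_of_subset_of_nonneg ?_ fun b _ _ => by positivity
  intro b hb
  rw [mem_image] at hb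
  obtain ⟨p, hp, rfl⟩ := hb
  rw [mem_filter] at hp
  obtain ⟨hp1, hp2⟩ := hp
  obtain ⟨g1, g2, g3⟩ := hP p hp1
  obtain ⟨e1, e2, e3, e4⟩ := Sand_end hs g1
  have h6 : (((nv s (nd p.1 p.2)).toNat : ℕ) : ℝ) = (nv s (nd p.1 p.2) : ℝ) := by exact_mod_cast e1
  rw [mem_filter, mem_Ico]
  refine ⟨⟨?_, ?_⟩, ?_, e3, e4⟩
  · have : (X : ℝ) ≤ (((nv s (nd p.1 p.2)).toNat : ℕ) : ℝ) := by rw [h6]; exact g2
    exact_mod_cast this
  · rw [Nat.lt_ceil, h6]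
    exact g3
  · rw [e2]
    exact (fp_iff hQ hs hZ g1).2 hp2

open Classical in
/-- The mass of all nodes. -/
theorem Sand_all {s : ℤ} (hs : s = 1 ∨ s = -1) (Q : Set ℤ) {X : ℕ} (hX : 1 ≤ X) {Y : ℝ} (hY : (X : ℝ) ≤ Y) :
    mass (A s Q) X Y + mass (A s Qᶜ) X Y ≤ Real.log (Y / X) / 4 + 6 / X := by
  have h1 : ∀ b : ℕ, ((3 : ℤ) ∣ s * b - 2) ↔ b % 3 = (if s = 1 then 2 else 1) := by
    intro b
    rcases hs with rfl | rfl
    · simp only [if_pos]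
      omega
    · rw [if_neg (by norm_num)]
      omega
  have h2 := osum (c := if s = 1 then 2 else 1) (by split_ifs <;> simp) hX hY
  refine le_trans (le_of_eq ?_) h2
  unfold mass
  rw [← sum_union]
  · refine sum_congr ?_ fun _ _ => rfl
    ext b
    simp only [mem_union, mem_filter, A, Set.mem_ofPred_eq, Set.mem_compl_iff, h1]
    tauto
  · rw [disjoint_left]
    intro b hb hb'
    rw [mem_filter] at hb hb'
    exact hb'.2.1 hb.2.1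

open Classical in
theorem Sand_mono (S : Set ℕ) (X : ℕ) {Y Y' : ℝ} (h : Y ≤ Y') : mass S X Y ≤ mass S X Y' := by
  unfold mass
  refine sum_le_sum_of_subset_of_nonneg ?_ fun b _ _ => by positivity
  intro b hb
  rw [mem_filter, mem_Ico] at hb ⊢
  exact ⟨⟨hb.1.1, hb.1.2.trans_le (Nat.ceil_mono h)⟩, hb.2⟩

open Classical in
theorem Sand_short (S : Set ℕ) {X : ℕ} (hX : 1 ≤ X) {q d : ℝ} (hq : 1 ≤ q) (hd : 0 ≤ d) :
    mass S X (q * X * (1 + d)) ≤ mass S X (q * X) + (d + 1 / X) := by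
  have hXr : (1 : ℝ) ≤ X := by exact_mod_cast hX
  have hqX : (0 : ℝ) < q * X := by positivity
  unfold mass
  have h1 : (Ico X ⌈q * X * (1 + d)⌉₊).filter (fun b => b ∈ S) ⊆
      (Ico X ⌈q * X⌉₊).filter (fun b => b ∈ S) ∪ Ico ⌈q * X⌉₊ ⌈q * X * (1 + d)⌉₊ := by
    intro b hb
    rw [mem_filter, mem_Ico] at hb
    rw [mem_union, mem_filter, mem_Ico, mem_Ico]
    by_cases h : b < ⌈q * X⌉₊
    · exact Or.inl ⟨⟨hb.1.1, h⟩, hb.2⟩
    · exact Or.inr ⟨not_lt.1 h, hb.1.2⟩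
  have hnn : ∀ b : ℕ, 0 ≤ 1 / (b : ℝ) := fun b => by positivity
  refine (sum_le_sum_of_subset_of_nonneg h1 fun b _ _ => hnn b).trans ?_
  have hdis : Disjoint ((Ico X ⌈q * X⌉₊).filter (fun b => b ∈ S)) (Ico ⌈q * X⌉₊ ⌈q * X * (1 + d)⌉₊) := by
    rw [disjoint_left]
    intro b hb hb'
    rw [mem_filter, mem_Ico] at hb
    rw [mem_Ico] at hb'
    omega
  rw [sum_union hdis]
  refine add_le_add le_rfl ?_
  have h2 : ∀ b ∈ Ico ⌈q * X⌉₊ ⌈q * X * (1 + d)⌉₊, 1 / (b : ℝ) ≤ 1 / (q * X) := by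
    intro b hb
    have h3 := (mem_Ico.1 hb).1
    exact one_div_le_one_div_of_le hqX (Nat.ceil_le.1 h3)
  refine (sum_le_card_nsmul _ _ _ h2).trans ?_
  rw [Nat.card_Ico, nsmul_eq_mul]
  have h4 : ((⌈q * X * (1 + d)⌉₊ - ⌈q * X⌉₊ : ℕ) : ℝ) ≤ q * X * d + 1 := by
    have h5 : ⌈q * X⌉₊ ≤ ⌈q * X * (1 + d)⌉₊ := Nat.ceil_mono (by nlinarith)
    rw [Nat.cast_sub h5]
    have h6 := Nat.ceil_lt_add_one (show 0 ≤ q * X * (1 + d) by positivity)
    have h7 := Nat.le_ceil (q * (X : ℝ))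
    nlinarith
  refine (mul_le_mul_of_nonneg_right h4 (by positivity)).trans ?_
  rw [add_mul]
  refine add_le_add (le_of_eq ?_) ?_
  · field_simp
  · rw [one_mul]
    exact one_div_le_one_div_of_le (by linarith) (by nlinarith)

open Classical in
/-- The masses of the invariant sets in the windows `[X, q X)`. -/
theorem Sand_core {s : ℤ} (hs : s = 1 ∨ s = -1) {q d : ℝ} (hq : 1 < q) (hq2 : q ≤ 2) (hd : 0 < d)
    (N : ℕ) : ∃ (Z : ℤ) (c : ℤ → ℝ) (X0 : ℕ), (∀ x, 0 ≤ c x) ∧ (∀ x, c x ≠ 0 → 0 < nv s x ∧ nv s x < Z) ∧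
      ∀ Q : Set ℤ, Inv2 N Q → ∀ X : ℕ, X0 ≤ X →
        |mass (A s Q) X (q * X) - (∑ x ∈ (Ico (-Z) Z).filter (fun x => 3 * x + 2 ∈ Q), c x) * Real.log q| ≤
          d + 7 / X := by
  obtain ⟨Z, c, X0, hZ, hc0, hcZ, hcs, hP⟩ := massW hs hd hq hq2 (2 * (N : ℤ))
  refine ⟨Z, c, max X0 1, hc0, hcZ, fun Q hQ X hX => ?_⟩
  have hX1 : 1 ≤ X := (le_max_right _ _).trans hX
  have hXr : (1 : ℝ) ≤ X := by exact_mod_cast hX1
  have hX0 : X0 ≤ X := (le_max_left _ _).trans hX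
  obtain ⟨P, hP1, hP2⟩ := hP X hX0
  have hlq : 0 < Real.log q := Real.log_pos hq
  have hlq1 : Real.log q ≤ 1 := by
    have := Real.log_le_sub_one_of_pos (show 0 < q by linarith)
    linarith
  have hqX1 : (X : ℝ) ≤ q * X := le_mul_of_one_le_left (by linarith) hq.le
  have hqX2 : q * (X : ℝ) ≤ q * X * (1 + d) := le_mul_of_one_le_right (by positivity) (by linarith)
  have hqX : (X : ℝ) ≤ q * X * (1 + d) := hqX1.trans hqX2
  have h1 := Sand_low hs hQ hZ hP1 hP2 (F := (Ico (-Z) Z).filter (fun x => 3 * x + 2 ∈ Q))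
    (fun x hx => mem_filter.1 hx)
  have h2 := Sand_low hs (inv2_compl hQ) hZ hP1 hP2 (F := (Ico (-Z) Z).filter (fun x => ¬ 3 * x + 2 ∈ Q))
    (fun x hx => mem_filter.1 hx)
  rw [← sum_mul] at h1 h2
  have h3 := Sand_all hs Q hX1 hqX
  have h4 : ∑ x ∈ (Ico (-Z) Z).filter (fun x => 3 * x + 2 ∈ Q), c x +
      ∑ x ∈ (Ico (-Z) Z).filter (fun x => ¬ 3 * x + 2 ∈ Q), c x = ∑ x ∈ Ico (-Z) Z, c x :=
    sum_filter_add_sum_filter_not _ _ _
  have h5 : Real.log (q * X * (1 + d) / X) ≤ Real.log q + d := by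
    have e1 : q * X * (1 + d) / X = q * (1 + d) := by field_simp
    rw [e1, Real.log_mul (by linarith) (by linarith)]
    have := Real.log_le_sub_one_of_pos (show 0 < 1 + d by linarith)
    linarith
  have h6 := Sand_short (A s Q) hX1 hq.le hd.le
  have h7 := Sand_mono (A s Q) X hqX2
  have h8 : (6 : ℝ) / X ≤ 7 / X := by gcongr; norm_num
  have h9 : (1 : ℝ) / X ≤ 7 / X := by gcongr; norm_num
  obtain ⟨a, ha⟩ : ∃ a, a = ∑ x ∈ (Ico (-Z) Z).filter (fun x => 3 * x + 2 ∈ Q), c x := ⟨_, rfl⟩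
  obtain ⟨a', ha'⟩ : ∃ a, a = ∑ x ∈ (Ico (-Z) Z).filter (fun x => ¬ 3 * x + 2 ∈ Q), c x := ⟨_, rfl⟩
  rw [← ha, ← ha'] at h4
  rw [← ha] at h1 ⊢
  rw [← ha'] at h2
  have h10 : (1 - d) / 4 * Real.log q ≤ (a + a') * Real.log q := by
    rw [h4]
    exact mul_le_mul_of_nonneg_right hcs hlq.le
  have h11 : d * Real.log q ≤ d * 1 := mul_le_mul_of_nonneg_left hlq1 hd.le
  rw [abs_le]
  constructor
  · linarith
  · nlinarith

theorem Sand_congr {s : ℤ} (hs : s = 1 ∨ s = -1) {N : ℕ} {S S' : Set ℤ}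
    (h : ∀ n : ℤ, (N : ℤ) ≤ |n| → (n ∈ S ↔ n ∈ S')) {X : ℕ} (hX : N ≤ X) (Y : ℝ) :
    mass (A s S) X Y = mass (A s S') X Y := by
  classical
  unfold mass
  refine sum_congr ?_ fun _ _ => rfl
  ext b
  rw [mem_filter, mem_filter, mem_Ico]
  refine and_congr_right fun hb => ?_
  show (s * (b : ℤ) ∈ S ∧ (3 : ℤ) ∣ s * b - 2 ∧ ¬ 4 ∣ b) ↔ (s * (b : ℤ) ∈ S' ∧ (3 : ℤ) ∣ s * b - 2 ∧ ¬ 4 ∣ b)
  have h1 : (N : ℤ) ≤ |s * (b : ℤ)| := by
    rw [abs_mul]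
    have h2 : |s| = 1 := by rcases hs with rfl | rfl <;> simp
    rw [h2, one_mul, Nat.abs_cast]
    exact_mod_cast hX.trans hb.1
  rw [h _ h1]

theorem sand {s : ℤ} (hs : s = 1 ∨ s = -1) {S : Set ℤ} (hS : Inv S) {q δ : ℝ} (hq : 1 < q) (hq2 : q ≤ 2)
    (hδ : 0 < δ) : ∃ (c : ℝ) (X0 : ℕ), ∀ X : ℕ, X0 ≤ X → |mass (A s S) X (q * X) - c| ≤ δ := by
  classical
  obtain ⟨N, S', hI, hSS⟩ := red hS
  obtain ⟨Z, c, X0, -, -, h⟩ := Sand_core hs hq hq2 (d := δ / 2) (by positivity) N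
  obtain ⟨X1, hX1⟩ := exists_nat_ge (14 / δ)
  refine ⟨(∑ x ∈ (Ico (-Z) Z).filter (fun x => 3 * x + 2 ∈ S'), c x) * Real.log q,
    max (max X0 N) (max X1 1), fun X hX => ?_⟩
  have h1 : X0 ≤ X := ((le_max_left _ _).trans (le_max_left _ _)).trans hX
  have h2 : N ≤ X := ((le_max_right _ _).trans (le_max_left _ _)).trans hX
  have h3 : X1 ≤ X := ((le_max_left _ _).trans (le_max_right _ _)).trans hX
  have h4 : 1 ≤ X := ((le_max_right _ _).trans (le_max_right _ _)).trans hX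
  have h5 : (0 : ℝ) < X := by exact_mod_cast h4
  have h6 : (14 : ℝ) / δ ≤ X := hX1.trans (by exact_mod_cast h3)
  have h7 : (7 : ℝ) / X ≤ δ / 2 := by
    rw [div_le_iff₀ hδ] at h6
    rw [div_le_iff₀ h5]
    linarith
  rw [Sand_congr hs hSS h2]
  refine (h S' hI X h1).trans ?_
  linarith

/-- A set without small elements of the sign `s` has small masses. -/
theorem sand0 {s : ℤ} (hs : s = 1 ∨ s = -1) {δ : ℝ} (hδ : 0 < δ) : ∃ Z : ℤ, ∀ S : Set ℤ,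
    (∀ n : ℤ, T n ∈ S ↔ n ∈ S) → (∀ n ∈ S, 0 < s * n → Z ≤ s * n) →
    ∃ X0 : ℕ, ∀ X : ℕ, X0 ≤ X → mass (A s S) X (2 * X) ≤ δ := by
  classical
  obtain ⟨Z, c, X0, -, hcZ, h⟩ := Sand_core hs one_lt_two le_rfl (d := δ / 2) (by positivity) 0
  obtain ⟨X1, hX1⟩ := exists_nat_ge (14 / δ)
  refine ⟨Z, fun S hS hSZ => ⟨max X0 (max X1 1), fun X hX => ?_⟩⟩
  have h1 : X0 ≤ X := (le_max_left _ _).trans hX
  have h3 : X1 ≤ X := ((le_max_left _ _).trans (le_max_right _ _)).trans hX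
  have h4 : 1 ≤ X := ((le_max_right _ _).trans (le_max_right _ _)).trans hX
  have h5 : (0 : ℝ) < X := by exact_mod_cast h4
  have h6 : (14 : ℝ) / δ ≤ X := hX1.trans (by exact_mod_cast h3)
  have h7 : (7 : ℝ) / X ≤ δ / 2 := by
    rw [div_le_iff₀ hδ] at h6
    rw [div_le_iff₀ h5]
    linarith
  have h8 : ∑ x ∈ (Ico (-Z) Z).filter (fun x => 3 * x + 2 ∈ S), c x = 0 := by
    refine sum_eq_zero fun x hx => ?_
    by_contra h9
    obtain ⟨g1, g2⟩ := hcZ x h9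
    have := hSZ _ (mem_filter.1 hx).2 g1
    unfold nv at g2
    omega
  have h10 := h S (inv2_of hS) X h1
  rw [h8, zero_mul, sub_zero] at h10
  exact (le_abs_self _).trans (h10.trans (by linarith))

end Pool.Agent.helper7.ND
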